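import Pool.Agent.H37CG.Fin

/-!
# The `H`-moments of the class groups of the quadratic fields `ℚ(√f(v))`, `f` a polynomial and `v` in an automatic set

From Mathlib: `𝓞 K`, `ClassGroup`, `NumberField.discr`: the ring of integers, the class group and the discriminant;
`CommGroup.primaryComponent G p`: the elements of `p`-power order; `DFA ℕ σ`: deterministic finite automata, `M.accepts`: the
words accepted by `M`; `Nat.digits b v`: the digits of `v`, the least significant digit first.

Method: as for `PolynomialValues`; the members of an automatic set are dominated by random integers with exponentially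
small characteristic functions (`Pool.Agent.N794.CG.aut_dom`).
-/

set_option autoImplicit false

namespace Pool.Agent.Results.MP_0f260b_nt.AutomaticValues

open Finset NumberField Filter Polynomial

open Classical in
/-- The members `v < N` of the automatic set: the digits of `v` in base `b` are accepted by the automaton `M`. -/
noncomputable def members {σ : Type} (b : ℕ) (M : DFA ℕ σ) (N : ℕ) : Finset ℕ :=
  (range N).filter (fun v => Nat.digits b v ∈ M.accepts)

/-- `#Sur(Cl(K)[p^∞], H)` for the group `H`, the product of the cyclic groups of orders `p ^ e i`. -/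
noncomputable def numSur (K : Type) [Field K] [NumberField K] (p : ℕ) {r : ℕ} (e : Fin r → ℕ) : ℕ :=
  Nat.card {φ : CommGroup.primaryComponent (ClassGroup (𝓞 K)) p →* (∀ i : Fin r, Multiplicative (ZMod (p ^ e i))) //
    Function.Surjective φ}

open Classical in
/-- Let `A` be an automatic set (the integers whose digits in base `b` are accepted by the finite automaton `M`) such that for
every `j` there are infinitely many `N` with more than `(log N) ^ j` members below `N`, and let `r ≥ 1`. There is `δ > 0` such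
that for all `D` and `U` there are `B`, `N₀` such that the following holds for all `N ≥ N₀`, all integral polynomials `f` of
degree at most `D`, not squares of polynomials over `ℂ`, whose coefficients are at most `N ^ U` in absolute value, all primes
`l` and all `m` with `l ^ m ≤ (log N) ^ U`, all groups `H` which are products of `r` cyclic groups of orders `l ^ e i` with
`e i ≤ m`, and all `Y ≥ 1`.

Let `K_v = ℚ(√f(v))` be quadratic fields with discriminant of absolute value at most `Y`, for the integers `v` in a set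
`S`. Then the mean value over the members `v < N` of `A` of the number of the surjective homomorphisms from the `l`-part
of the class group of `K_v` onto `H` (with `0` if `v` is not in `S`) is at most
`((log N) ^ B Y ^ (1 / 2) max (Y ^ (-1 / (2 l ^ m)), N ^ (- δ))) ^ r`. -/
theorem result {σ : Type} [Fintype σ] (b : ℕ) (hb : 2 ≤ b) (M : DFA ℕ σ)
    (hM : ∀ j : ℕ, ∃ᶠ N : ℕ in atTop, Real.log N ^ j < ((members b M N).card : ℝ)) (r : ℕ) (hr : 1 ≤ r) :
    ∃ δ : ℝ, 0 < δ ∧ ∀ D U : ℕ, ∃ B N₀ : ℕ, ∀ N : ℕ, N₀ ≤ N →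
    ∀ f : ℤ[X], f.natDegree ≤ D → ¬ IsSquare (f.map (Int.castRingHom ℂ)) → (∀ i, |f.coeff i| ≤ (N : ℤ) ^ U) →
    ∀ (l m : ℕ) (e : Fin r → ℕ), l.Prime → (l : ℝ) ^ m ≤ Real.log N ^ U → (∀ i, e i ≤ m) → ∀ Y : ℝ, 1 ≤ Y →
    ∀ (S : Set ℕ) (K : ℕ → Type) [∀ v, Field (K v)] [∀ v, NumberField (K v)],
    (∀ v ∈ S, Module.finrank ℚ (K v) = 2 ∧ |(discr (K v) : ℝ)| ≤ Y ∧
      ∃ α : K v, IntermediateField.adjoin ℚ {α} = ⊤ ∧ α ^ 2 = ((f.eval (v : ℤ) : ℤ) : K v)) →
    ∑ v ∈ members b M N, (if v ∈ S then (numSur (K v) l e : ℝ) else 0) ≤ (members b M N).card *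
      (Real.log N ^ B * (√Y * max (Y ^ (-(1 / (2 * (l : ℝ) ^ m)))) ((N : ℝ) ^ (-δ)))) ^ r := by
  have hmem : ∀ N, Pool.Agent.N794.CG.mem b M N = members b M N := by
    intro N
    unfold Pool.Agent.N794.CG.mem members
    rfl
  obtain ⟨δ, hδ, H⟩ := Pool.Agent.H37CG.aut b hb M (by
    intro j
    refine (hM j).mono fun N hN => ?_
    rw [hmem]
    exact hN) r hr
  refine ⟨δ, hδ, fun D U => ?_⟩
  obtain ⟨B, N₀, J⟩ := H 2 D U le_rfl
  refine ⟨B, N₀ + 1, fun N hN f hfD hsq hco l m e hl hlT he Y hY S K _ _ hS => ?_⟩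
  have hN1 : (1 : ℤ) ≤ N := by exact_mod_cast (by omega : 1 ≤ N)
  have h1 := J N (by omega) (X ^ 2 - C f) (Pool.Agent.H37CG.curve_sq f D hfD _ (one_le_pow₀ hN1) hco hsq)
    (l ^ m) (Nat.one_le_pow _ _ hl.pos) (by push_cast; exact hlT) Y hY S K (by
    intro v hv
    obtain ⟨h2, h3, α, h4, h5⟩ := hS v hv
    refine ⟨h2, h3, α, h4, ?_⟩
    rw [Pool.Agent.H37CG.fib_sq, map_sub, map_pow, aeval_X, aeval_C, h5, algebraMap_int_eq, eq_intCast, sub_self])
  have e1 : ((2 * (2 - 1) * l ^ m : ℕ) : ℝ) = 2 * (l : ℝ) ^ m := by push_cast; ring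
  rw [e1, hmem] at h1
  refine le_trans (sum_le_sum fun v _ => ?_) h1
  by_cases hv : v ∈ S
  · rw [if_pos hv, if_pos hv]
    exact Pool.Agent.N794.CG.numSur_le (K v) l hl e m he
  · rw [if_neg hv, if_neg hv]

end Pool.Agent.Results.MP_0f260b_nt.AutomaticValues
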