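import Pool.Agent.H85G.F
import Pool.Agent.H85G.G
import Pool.Agent.N794.CG.Quad

/-!
# The `H`-moments of the class groups of quadratic fields over random integers whose digits have long range interactions

The digits of `v` form a Gibbs measure: the interactions have unbounded range, involve any number of digits, and are neither
small nor translation invariant; the only condition is that they are summable at each position. The a priori measure is an
arbitrary Markov random field with flexible digits (it may have hard constraints) on an arbitrary graph of positions of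
bounded degree. In general there is no uniqueness of the phase and no decay of correlations for such measures.

Method: the exponential sums over these measures are exponentially small in the number of the positions at which the
frequency has a digit which is not extremal (`Pool.Agent.H85G`: dense sets of positions whose interactions with each other
have a small total weight, and an expansion of the factors of the remaining interactions). So many small primes split in
`ℚ(√(j v))` for almost all members `v`, with a high power saving in the probability of the exceptions at each scale, which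
gives the moments by the argument of Ellenberg and Venkatesh and a count of surjections (starting library,
`Pool.Agent.N794.CG.sur_gen`, `Pool.Agent.R345.HM`).

From Mathlib: `𝓞 K`, `ClassGroup`, `NumberField.discr`: the ring of integers, the class group and the discriminant;
`CommGroup.primaryComponent G p`: the elements of `p`-power order.
-/

set_option autoImplicit false

namespace Pool.Agent.Results.MP_0f260b_nt.LongRangeGibbsMoments

open Finset NumberField

/-- The digit of `v` at the position `i` in base `b` (the position `0` is the least significant one). -/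
def dig (b v i : ℕ) : ℕ := v / b ^ i % b

/-- The integer which has the digits of `v` at the positions in `S` and the digits of `w` at the other positions below `k`. -/
def splice (b k : ℕ) (S : Finset ℕ) (v w : ℕ) : ℕ := ∑ i ∈ range k, (if i ∈ S then dig b v i else dig b w i) * b ^ i

/-- `v` and `w` have the same digits outside the set `S` of positions. -/
def Off (b : ℕ) (S : Finset ℕ) (v w : ℕ) : Prop := ∀ i, i ∉ S → dig b v i = dig b w i

open Classical in
/-- The closed neighbourhood of the position `i` in the graph `A` on the positions `0, …, k - 1`. -/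
noncomputable def nb (k : ℕ) (A : ℕ → ℕ → Prop) (i : ℕ) : Finset ℕ := (range k).filter fun j => j = i ∨ A i j

open Classical in
/-- The total weight of the integers below `b ^ k` which have the same digits as `v` outside `S`. -/
noncomputable def mass (b k : ℕ) (q : ℕ → ℝ) (S : Finset ℕ) (v : ℕ) : ℝ :=
  ∑ w ∈ (range (b ^ k)).filter (fun w => Off b S w v), q w

/-- The a priori measure: the digits of a random integer `v < b ^ k` (with the probabilities `q v`) form a Markov random
field on a graph `A` of positions with degrees at most `Δ` (for every set `S` of positions and all `v`, `w` which have the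
same digits at the positions outside `S` adjacent to `S`, the product `q v * q w` does not change if `v` and `w` exchange
their digits in `S`), and each digit is flexible: for every `v` with `q v ≠ 0` and every position `i`, there are `x` and `y`
which have the same digits as `v` outside the closed neighbourhood of `i`, which differ from each other exactly at the
position `i`, and whose conditional probabilities, given the digits outside this neighbourhood, are at least `η`. (For
instance, with `Δ = 0`: independent digits, each of which has at least two values with probabilities at least `η`.) -/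
structure RandomField (b k Δ : ℕ) (η : ℝ) (A : ℕ → ℕ → Prop) (q : ℕ → ℝ) : Prop where
  symm : ∀ i j, A i j → A j i
  degree : ∀ i < k, (nb k A i).card ≤ Δ + 1
  nonneg : ∀ v, 0 ≤ q v
  sum : ∑ v ∈ range (b ^ k), q v = 1
  markov : ∀ S : Finset ℕ, ∀ v < b ^ k, ∀ w < b ^ k, (∀ i ∈ S, ∀ j < k, j ∉ S → A i j → dig b v j = dig b w j) →
    q v * q w = q (splice b k S v w) * q (splice b k S w v)
  flexible : ∀ v < b ^ k, q v ≠ 0 → ∀ i < k, ∃ x < b ^ k, ∃ y < b ^ k, Off b (nb k A i) x v ∧ Off b {i} y x ∧
    dig b y i ≠ dig b x i ∧ η * mass b k q (nb k A i) v ≤ q x ∧ η * mass b k q (nb k A i) v ≤ q y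

/-- The interactions `φ X`, for all sets `X ⊆ {0, …, k - 1}` of positions: `φ X v` depends only on the digits of `v` at the
positions in `X`, its absolute value is at most `N X`, and for each position `i` the sum of `exp (r * |X|) * N X` over the
sets `X` which contain `i` is at most `M`. (For instance, pair interactions `φ {i, j}` with `∑ j, N {i, j} ≤ exp (- 2 r) M`
for all `i`, at arbitrary distances.) -/
structure Interaction (b k : ℕ) (M r : ℝ) (φ : Finset ℕ → ℕ → ℝ) (N : Finset ℕ → ℝ) : Prop where
  depends : ∀ X ⊆ range k, ∀ v < b ^ k, ∀ w < b ^ k, (∀ i ∈ X, dig b v i = dig b w i) → φ X v = φ X w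
  bound : ∀ X ⊆ range k, ∀ v < b ^ k, |φ X v| ≤ N X
  summable : ∀ i < k, ∑ X ∈ (range k).powerset.filter (fun X => i ∈ X), Real.exp (r * X.card) * N X ≤ M

/-- The Gibbs weight: the a priori weight times the exponential of the sum of all the interactions. -/
noncomputable def weight (k : ℕ) (q : ℕ → ℝ) (φ : Finset ℕ → ℕ → ℝ) (v : ℕ) : ℝ :=
  q v * Real.exp (∑ X ∈ (range k).powerset, φ X v)

/-- The Gibbs measure: the probability of `v < b ^ k`. -/
noncomputable def gibbs (b k : ℕ) (q : ℕ → ℝ) (φ : Finset ℕ → ℕ → ℝ) (v : ℕ) : ℝ :=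
  weight k q φ v / ∑ w ∈ range (b ^ k), weight k q φ w

lemma field_conv {b k Δ : ℕ} {η : ℝ} {A : ℕ → ℕ → Prop} {q : ℕ → ℝ} (h : RandomField b k Δ η A q) :
    Pool.Agent.N213.GF.Field b k Δ η A q :=
  ⟨h.symm, h.degree, h.nonneg, h.sum, h.markov, h.flexible⟩

lemma inter_conv {b k : ℕ} {M r : ℝ} {φ : Finset ℕ → ℕ → ℝ} {N : Finset ℕ → ℝ} (hb : 2 ≤ b) (h : Interaction b k M r φ N) :
    Pool.Agent.H85G.Inter b k (max M 0) r (fun X v => if X ⊆ range k then φ X v else 0)
      (fun X => if X ⊆ range k then N X else 0) := by
  have h0 : ∀ X ⊆ range k, 0 ≤ N X := by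
    intro X hX
    exact (abs_nonneg _).trans (h.bound X hX 0 (by positivity))
  refine ⟨?_, ?_, ?_, ?_⟩
  · intro X v hv w hw hvw
    split_ifs with hX
    · exact h.depends X hX v hv w hw hvw
    · rfl
  · intro X v hv
    split_ifs with hX
    · exact h.bound X hX v hv
    · rw [abs_zero]
  · intro X
    split_ifs with hX
    · exact h0 X hX
    · exact le_rfl
  · intro i hi
    refine le_trans (le_of_eq ?_) ((h.summable i hi).trans (le_max_left _ _))
    apply sum_congr rfl
    intro X hX
    rw [mem_filter, mem_powerset] at hX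
    beta_reduce
    rw [if_pos hX.1]

lemma energy_conv {k : ℕ} (φ : Finset ℕ → ℕ → ℝ) (v : ℕ) :
    Pool.Agent.H85G.energy k (fun X v => if X ⊆ range k then φ X v else 0) v = ∑ X ∈ (range k).powerset, φ X v := by
  unfold Pool.Agent.H85G.energy
  apply sum_congr rfl
  intro X hX
  beta_reduce
  rw [if_pos (mem_powerset.1 hX)]

lemma gt_conv {b k Δ : ℕ} (hb : 2 ≤ b) {η M r : ℝ} {A : ℕ → ℕ → Prop} {q : ℕ → ℝ} {φ : Finset ℕ → ℕ → ℝ} {N : Finset ℕ → ℝ}
    (hq : RandomField b k Δ η A q) (hφ : Interaction b k M r φ N) :
    Pool.Agent.H85G.GT b Δ η (max M 0) r k (gibbs b k q φ) := by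
  refine ⟨A, q, _, _, field_conv hq, inter_conv hb hφ, ?_⟩
  funext v
  unfold gibbs weight Pool.Agent.H85G.gibbs
  simp only [energy_conv]

/-- `#Sur(Cl(K)[p^∞], H)` for the group `H`, the product of the cyclic groups of orders `p ^ e i`. -/
noncomputable def numSur (K : Type) [Field K] [NumberField K] (p : ℕ) {r : ℕ} (e : Fin r → ℕ) : ℕ :=
  Nat.card {ψ : CommGroup.primaryComponent (ClassGroup (𝓞 K)) p →* (∀ i : Fin r, Multiplicative (ZMod (p ^ e i))) //
    Function.Surjective ψ}

open Classical in
/-- Let `b ≥ 2`, `Δ`, `η > 0`, `M`, `ρ > 0` and `r ≥ 1` be fixed. There is `δ > 0` such that for `κ ≠ 0` and `U`, `V` there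
are `B`, `k₀` such that the following holds for all `k ≥ k₀`, all `c`, all integers `j ≠ 0` with `|j| ≤ k ^ U`, all primes
`l` and all `m` with `l ^ m ≤ k ^ U`, all groups `H` which are products of `r` cyclic groups of orders `l ^ e i` with
`e i ≤ m`, and all `Y ≥ 1`.

Let `K_n = ℚ(√(j n))` be quadratic fields with discriminant of absolute value at most `Y`, for the integers `n` in a set `S`
of integers of absolute value at most `b ^ (V k)`. Let `v < b ^ k` be a random integer whose digits have the Gibbs
distribution of an arbitrary interaction which is summable at each position (with the bound `M`), with respect to an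
arbitrary Markov random field with flexible digits on a graph of positions with degrees at most `Δ`. Then the expectation of
the number of the surjective homomorphisms from the `l`-part of the class group of `K_n`, `n = c + κ v`, onto `H` (with `0`
if `n` is not in `S`) is at most `(k ^ B Y ^ (1 / 2) max (Y ^ (-1 / (2 l ^ m)), b ^ (- δ k))) ^ r`. -/
theorem result (b Δ : ℕ) (hb : 2 ≤ b) (η : ℝ) (hη : 0 < η) (M ρ : ℝ) (hρ : 0 < ρ) (r : ℕ) (hr : 1 ≤ r) :
    ∃ δ : ℝ, 0 < δ ∧ ∀ κ : ℤ, κ ≠ 0 → ∀ U V : ℕ, ∃ B k₀ : ℕ, ∀ k : ℕ, k₀ ≤ k →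
    ∀ c j : ℤ, j ≠ 0 → |j| ≤ (k : ℤ) ^ U → ∀ (l m : ℕ) (e : Fin r → ℕ), l.Prime → l ^ m ≤ k ^ U → (∀ i, e i ≤ m) →
    ∀ Y : ℝ, 1 ≤ Y →
    ∀ (S : Set ℤ) (K : ℤ → Type) [∀ n, Field (K n)] [∀ n, NumberField (K n)],
    (∀ n ∈ S, |n| ≤ (b : ℤ) ^ (V * k) ∧ Module.finrank ℚ (K n) = 2 ∧ |(discr (K n) : ℝ)| ≤ Y ∧
      ∃ α : K n, IntermediateField.adjoin ℚ {α} = ⊤ ∧ α ^ 2 = ((j * n : ℤ) : K n)) →
    ∀ (A : ℕ → ℕ → Prop) (q : ℕ → ℝ), RandomField b k Δ η A q →
    ∀ (φ : Finset ℕ → ℕ → ℝ) (N : Finset ℕ → ℝ), Interaction b k M ρ φ N →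
    ∑ v ∈ range (b ^ k), gibbs b k q φ v * (if c + κ * v ∈ S then (numSur (K (c + κ * v)) l e : ℝ) else 0) ≤
      ((k : ℝ) ^ B * (√Y * max (Y ^ (-(1 / (2 * (l : ℝ) ^ m)))) ((b : ℝ) ^ (-(δ * k))))) ^ r := by
  have hG := Pool.Agent.H85G.gt_good b Δ hb η (max M 0) ρ hη (le_max_right _ _) hρ
  obtain ⟨A₀, γ, hγ0, hγ1, hdom⟩ := Pool.Agent.H85G.good_dom hb hG
  obtain ⟨W, hW, H⟩ := Pool.Agent.N794.CG.sur_gen b hb A₀ γ hγ0 hγ1 r hr
  have hWr : (0 : ℝ) < W := by exact_mod_cast hW
  refine ⟨1 / W, by positivity, fun κ hκ U V => ?_⟩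
  obtain ⟨B, k₀, J⟩ := H b.factorial κ (Nat.factorial_pos _) hκ U V
  refine ⟨B, k₀, fun k hk c j hj0 hj l m e hl1 hlT he Y hY S K _ _ hS A q hq φ N hφ => ?_⟩
  have hp := gt_conv hb hq hφ
  have h1 := J k hk j hj0 hj l m e hl1 hlT he Y hY S K hS 1 ℕ (range (b ^ k)) (gibbs b k q φ)
    (fun v => c + κ * (v : ℕ)) le_rfl (fun i _ => hG.nonneg k _ hp i) (hG.sum k _ hp).le
    (hdom k _ hp κ c)
  have e1 : (b : ℝ) ^ (-((k : ℝ) / W)) = (b : ℝ) ^ (-(1 / (W : ℝ) * k)) := by
    congr 1
    ring
  rw [e1, one_mul] at h1
  exact h1

end Pool.Agent.Results.MP_0f260b_nt.LongRangeGibbsMoments
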