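import Pool.Agent.H37CG.Fin
import Pool.Agent.Results.MP_0f260b_nt.ExchangeableMoments

/-!
# The `H`-moments of the class groups of the quadratic fields `ℚ(√f(v))`, `f` a polynomial and `v` with random digits

`Exchangeable`, `numSur`: see `Pool.Agent.Results.MP_0f260b_nt.ExchangeableMoments` (starting library), where `f` is linear.
From Mathlib: `𝓞 K`, `ClassGroup`, `NumberField.discr`: the ring of integers, the class group and the discriminant.

Method: by Weil's bound about half of the residues `v` modulo a prime `p`, which is good for the curve `y ^ 2 = f(x)`, have a value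
`f(v)` which is a nonzero square modulo `p`, so that `p` splits in `ℚ(√f(v))`; by Noether's irreducibility forms few primes are
bad, uniformly in `f`. The random integers whose blocks of digits can be exchanged have exponentially small
characteristic functions away from few frequencies (`Pool.Agent.N794.CG.flex_dom`), and this gives at each scale many such
primes for almost all `v`, with a high power saving in the probability of the exceptions.
-/

set_option autoImplicit false

namespace Pool.Agent.Results.MP_0f260b_nt.PolynomialValues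

open Finset NumberField Filter Polynomial
open Pool.Agent.Results.MP_0f260b_nt.ExchangeableMoments (Exchangeable flex_of numSur)

open Classical in
/-- Let `b ≥ 2`, `L ≥ 1`, `0 < η ≤ 1`, `T` and `r ≥ 1` be fixed. There is `δ > 0` such that for all `D` and `U` there
are `B`, `k₀` such that the following holds for all `k ≥ k₀`, all probabilities `p` on the words of `k` digits in which
blocks of `L` digits can be exchanged (`Exchangeable b L η T k p`), all integral polynomials `f` of degree at most `D`,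
not squares of polynomials over `ℂ`, whose coefficients are at most `b ^ (U k)` in absolute value, all primes `l` and all `m` with
`l ^ m ≤ k ^ U`, all groups `H` which are products of `r` cyclic groups of orders `l ^ e i` with `e i ≤ m`, and all `Y ≥ 1`.

Let `K_v = ℚ(√f(v))` be quadratic fields with discriminant of absolute value at most `Y`, for the integers `v` in a set
`S`. If `v < b ^ k` is random with the distribution `p` then the expectation of the number of the surjective homomorphisms
from the `l`-part of the class group of `K_v` onto `H` (with `0` if `v` is not in `S`) is at most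
`(k ^ B Y ^ (1 / 2) max (Y ^ (-1 / (2 l ^ m)), b ^ (- δ k))) ^ r`. -/
theorem result (b L : ℕ) (hb : 2 ≤ b) (hL : 1 ≤ L) (η : ℝ) (hη0 : 0 < η) (hη1 : η ≤ 1) (T r : ℕ) (hr : 1 ≤ r) :
    ∃ δ : ℝ, 0 < δ ∧ ∀ D U : ℕ, ∃ B k₀ : ℕ, ∀ k : ℕ, k₀ ≤ k → ∀ p : ℕ → ℝ, Exchangeable b L η T k p →
    ∀ f : ℤ[X], f.natDegree ≤ D → ¬ IsSquare (f.map (Int.castRingHom ℂ)) → (∀ i, |f.coeff i| ≤ (b : ℤ) ^ (U * k)) →
    ∀ (l m : ℕ) (e : Fin r → ℕ), l.Prime → l ^ m ≤ k ^ U → (∀ i, e i ≤ m) → ∀ Y : ℝ, 1 ≤ Y →
    ∀ (S : Set ℕ) (K : ℕ → Type) [∀ v, Field (K v)] [∀ v, NumberField (K v)],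
    (∀ v ∈ S, Module.finrank ℚ (K v) = 2 ∧ |(discr (K v) : ℝ)| ≤ Y ∧
      ∃ α : K v, IntermediateField.adjoin ℚ {α} = ⊤ ∧ α ^ 2 = ((f.eval (v : ℤ) : ℤ) : K v)) →
    ∑ v ∈ range (b ^ k), p v * (if v ∈ S then (numSur (K v) l e : ℝ) else 0) ≤
      ((k : ℝ) ^ B * (√Y * max (Y ^ (-(1 / (2 * (l : ℝ) ^ m)))) ((b : ℝ) ^ (-(δ * k))))) ^ r := by
  obtain ⟨δ, hδ, H⟩ := Pool.Agent.H37CG.exch b L hb hL η hη0 hη1 T r hr
  refine ⟨δ, hδ, fun D U => ?_⟩
  obtain ⟨B, k₀, J⟩ := H 2 D U le_rfl
  refine ⟨B, k₀, fun k hk p hp f hfD hsq hco l m e hl hlT he Y hY S K _ _ hS => ?_⟩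
  have hb1 : (1 : ℤ) ≤ b := by exact_mod_cast (by omega : 1 ≤ b)
  have h1 := J k hk p (flex_of hp) (X ^ 2 - C f) (Pool.Agent.H37CG.curve_sq f D hfD _ (one_le_pow₀ hb1) hco hsq)
    (l ^ m) (Nat.one_le_pow _ _ hl.pos) hlT Y hY S K (by
    intro v hv
    obtain ⟨h2, h3, α, h4, h5⟩ := hS v hv
    refine ⟨h2, h3, α, h4, ?_⟩
    rw [Pool.Agent.H37CG.fib_sq, map_sub, map_pow, aeval_X, aeval_C, h5, algebraMap_int_eq, eq_intCast, sub_self])
  have e1 : ((2 * (2 - 1) * l ^ m : ℕ) : ℝ) = 2 * (l : ℝ) ^ m := by push_cast; ring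
  rw [e1] at h1
  refine le_trans (sum_le_sum fun v _ => mul_le_mul_of_nonneg_left ?_ (hp.nonneg v)) h1
  by_cases hv : v ∈ S
  · rw [if_pos hv, if_pos hv]
    exact Pool.Agent.N794.CG.numSur_le (K v) l hl e m he
  · rw [if_neg hv, if_neg hv]

end Pool.Agent.Results.MP_0f260b_nt.PolynomialValues
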